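import Pool.Agent.W2helper86.ETS.Red3

set_option autoImplicit false

/-!
# Project ETS, piece REDS
-/

namespace Pool.Agent.W2helper86.ETS

open Pool.Agent.W2helper22.SM Pool.Agent.W2helper22.ETS Pool.Agent.W2helper86.SM
open Pool.Agent.W2helper22.ET (Instance Algo Decides ETFast PatFast tri start Computes Lists
  Instance.enc Instance.Yes kk nU patE roleE labE setLab BigW3 Hit)
open Pool.Agent.W2helper86.ET (V trA trS seqA seqS iteEq iteLt regs_lt enc_out enc_ge2 enc_a0_pos
  enc_a0_neg enc_a1 enc_a0_le enc_a1_le cnt cnt_succ cnt_le)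

/-- PIECE REDS -/
theorem reds_ok : P_REDS := by
  classical
  intro P g p q n k W' ω' ω X G μ t hk hbig hωb hω hωg hrung hμ hrun
  have N := num hk hbig
  have hn1 := N.n1
  have hnW := N.nW
  have hnW4 := N.nW4
  have hLW := N.LW
  have hGL := N.hG
  have hKL := N.KL
  have hUW := N.UW
  have hkn := N.k3
  have hG100 := N.G100
  have hpW := N.pW
  have hqW := N.qW
  have hplW := N.plW
  have hW2 := N.W2
  have hW2g := N.W2g
  have hlog : Nat.log 2 n ≤ n := Nat.log_le_self 2 n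
  have hbits : bits n = Nat.log 2 n + 1 := rfl
  have h5 : n * n * n + 1 ≤ (n * n * n + 1) * (n + 1) := Nat.le_mul_of_pos_right _ (by omega)
  have hkW : k < W' := by
    have : k < 2 ^ k := Nat.lt_two_pow_self
    omega
  obtain ⟨μp, hμp⟩ : ∃ μp, μp = μ (nL k n) := ⟨_, rfl⟩
  rw [← hμp] at hrung hμ
  have hμW : ∀ i j, μp.a 2 i j < W' := by
    intro i j
    have h1 : 0 < g.W n := Nat.two_pow_pos _
    have := hrung.entries_lt (fun _ _ _ => h1) 2 i j
    omega
  obtain ⟨tp, htp⟩ : ∃ tp, tp = t (nL k n) := ⟨_, rfl⟩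
  rw [← htp] at hrung
  have hEnn := nE_le G
  -- the list has at most `nE G` entries, the cost is bounded with `nE G`
  obtain ⟨S, hS⟩ : ∃ S : ℕ, S = ∑ h ∈ Finset.range (nG k n), (107 + nE G * 81 +
    ∑ j ∈ Finset.range (cK n), (32 + nE G * 50 + 10 * t (h * cK n + j))) := ⟨_, rfl⟩
  have hSe : S = nG k n * (107 + nE G * 81) + nL k n * (32 + nE G * 50) +
      10 * ∑ idx ∈ Finset.range (nL k n), t idx := by
    rw [hS]
    exact cost_sum (nG k n) (cK n) (nL k n) (107 + nE G * 81) (32 + nE G * 50) rfl t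
  unfold redP
  refine (Tr.seq (T₁ := 100 * (n + 1)) (T₂ := 110 + n * (12 + n * 50) + 10 * tp + S)
    ((logP_ok W' n ω' X.enc hn1 (by omega) rfl).mono ?_)).le ?_
  swap
  · rw [hSe, Finset.sum_range_succ, ← htp]
    have e1 : nL k n * (32 + nE G * 50) = 32 * nL k n + 50 * (nL k n * nE G) := by ring
    have e2 : 2000 * (n + 1) ^ 2 = 2000 * (n * n) + 4000 * n + 2000 := by ring
    have e5 : 2000 * (nL k n + 1) * (nE G + 1) = 2000 * (nL k n * nE G) + 2000 * nL k n +
        2000 * nE G + 2000 := by ring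
    have e3 : nG k n * (107 + nE G * 81) ≤ nL k n * (107 + nE G * 81) :=
      Nat.mul_le_mul_right _ hGL
    have e4 : nL k n * (107 + nE G * 81) = 107 * nL k n + 81 * (nL k n * nE G) := by ring
    have e6 : n * (12 + n * 50) = 12 * n + 50 * (n * n) := by ring
    rw [e1, e2, e5, e6]
    rw [e4] at e3
    generalize nG k n * (107 + nE G * 81) = z0 at e3 ⊢
    generalize nL k n * nE G = z2 at e3 ⊢
    generalize n * n = z3 at e3 ⊢
    generalize ∑ idx ∈ Finset.range (nL k n), t idx = z4 at e3 ⊢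
    omega
  rintro m₁ rfl
  have hpk : p * Nat.log 2 n / q = k := N.kk.symm
  refine seqA (x := k) (T := 104 + n * (12 + n * 50) + 10 * tp + S)
    ((V.div (V.mul (V.lit hpW) (V.reg (n := Nat.log 2 n) rfl (by omega)) hplW)
      (V.lit hqW)).cast hpk) ?_
    (by simp only [Expr.cost]; omega)
  refine seqA (x := cK n) (T := 96 + n * (12 + n * 50) + 10 * tp + S)
    (V.add (V.mul (V.lit (by omega)) (V.add (V.reg (n := Nat.log 2 n) rfl (by omega))
      (V.lit (by omega)) (by omega)) (by omega)) (V.lit (by omega)) (by omega)) ?_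
    (by simp only [Expr.cost]; omega)
  refine seqA (x := nU k n) (T := 82 + n * (12 + n * 50) + 10 * tp + S)
    ((V.mul (V.lit (by omega)) (V.add (V.div (V.mul (V.mul (V.reg (n := n) rfl (by omega))
      (V.reg (n := n) rfl (by omega)) ?_) (V.reg (n := n) rfl (by omega)) (by omega))
      (V.shl (V.reg (n := k) rfl hkW) (by omega) (by omega))) (V.lit (by omega)) ?_) ?_).cast ?_) ?_
    (by simp only [Expr.cost]; omega)
  · have : n * n * 1 ≤ n * n * n := Nat.mul_le_mul_left _ hn1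
    omega
  · have := Nat.div_le_self (n * n * n) (2 ^ k)
    omega
  · have := Nat.div_le_self (n * n * n) (2 ^ k)
    omega
  · unfold nU
    rw [show n ^ 3 = n * n * n by ring]
  have hbb : (Nat.log 2 n + 1) * (Nat.log 2 n + 1) * nU k n * 400 = nG k n := by
    unfold nG bits
    ring
  have hbn4 : (Nat.log 2 n + 1) * (Nat.log 2 n + 1) * nU k n ≤ nG k n := by
    rw [← hbb]
    exact Nat.le_mul_of_pos_right _ (by norm_num)
  have hbn3 : (Nat.log 2 n + 1) * (Nat.log 2 n + 1) ≤ nG k n := by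
    refine le_trans ?_ hbn4
    exact Nat.le_mul_of_pos_right _ N.U1
  refine seqA (x := nG k n) (T := 70 + n * (12 + n * 50) + 10 * tp + S)
    ((V.mul (V.mul (V.mul (V.add (V.reg (n := Nat.log 2 n) rfl (by omega)) (V.lit (by omega))
      (by omega)) (V.add (V.reg (n := Nat.log 2 n) rfl (by omega)) (V.lit (by omega))
      (by omega)) (by omega)) (V.reg (n := nU k n) rfl hUW) (by omega)) (V.lit (by omega))
      (by omega)).cast hbb) ?_
    (by simp only [Expr.cost]; omega)
  refine seqA (x := nL k n) (T := 66 + n * (12 + n * 50) + 10 * tp + S)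
    ((V.mul (V.reg (n := nG k n) rfl (by omega)) (V.reg (n := cK n) rfl (by omega))
      (show nL k n < W' by omega))) ?_
    (by simp only [Expr.cost]; omega)
  refine seqA (x := nL k n + 1) (T := 62 + n * (12 + n * 50) + 10 * tp + S)
    (V.add (V.reg (n := nL k n) rfl (by omega)) (V.lit (by omega)) (by omega)) ?_
    (by simp only [Expr.cost]; omega)
  refine seqS (a := 0) (b := nL k n) (x := n) (T := 58 + n * (12 + n * 50) + 10 * tp + S) (V.lit (by omega))
    (V.reg rfl (by omega)) (V.reg rfl (by omega)) ?_ (by simp only [Expr.cost]; omega)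
  obtain ⟨m₂, hm₂⟩ : ∃ m₂, m₂ = (((((((X.enc.setV 3 (Nat.log 2 n)).setV 4 k).setV 5
    (cK n)).setV 6 (nU k n)).setV 7 (nG k n)).setV 1 (nL k n)).setV 2 (nL k n + 1)) := ⟨_, rfl⟩
  rw [← hm₂]
  have hR2 : RGS n k m₂ := by
    rw [hm₂]
    exact ⟨rfl, rfl, rfl, rfl, rfl, rfl, rfl⟩
  have h12 : m₂.v 1 = nL k n := by rw [hm₂]; rfl
  have ha2 : m₂.a = X.enc.a := by rw [hm₂]; rfl
  have hz2 : ∀ idx, Inst (nL k n + 1) idx m₂ ⟨fun _ => 0, fun _ _ _ => 0⟩ := by
    intro idx
    refine ⟨?_, ?_⟩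
    · intro x
      rw [ha2]
      exact enc_ge2 X _ _ _ (by omega)
    · intro r i j
      rw [ha2]
      exact enc_ge2 X _ _ _ (by omega)
  obtain ⟨hI1, hF1⟩ := assign_inst (hz2 (nL k n)) 0 n
  have hst : (Mem.setV ⟨fun _ => 0, fun _ _ _ => 0⟩ 0 n) = start n := rfl
  rw [hst] at hI1
  have hsim := sim' (g.W n) W' (nL k n + 1) (nL k n) (ω (nL k n)) ω' g.prog
    (m₂.setA 10 0 (nL k n) n) _ _ tp (by omega) (by omega) (by omega) N.W2g N.WLg N.mxg hωg h12
    hR2.2.1 hI1 hrung
  refine (Tr.seq (T₁ := 10 * tp) (T₂ := 58 + n * (12 + n * 50) + S) (hsim.mono ?_)).le (by omega)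
  rintro m₃ ⟨hI3, hF3⟩
  have hcf : CF (nL k n + 1) (nL k n) m₂ m₃ := (CF.of_sim hF1).trans (CF.of_sim hF3)
  have hv3 : m₃.v = m₂.v := by rw [hF3.1]; rfl
  have hR3 : RGS n k m₃ := hR2.of_eq (fun y _ _ => by rw [hv3])
  refine (Tr.seq (T₁ := 7 + n * (12 + n * 50)) (T₂ := 51 + S)
    ((list_tr N G hμ hμW m₃ hR3 hI3).mono ?_)).le (by omega)
  rintro m₄ ⟨hv4, ha4, hL4⟩
  obtain ⟨len, hlen⟩ : ∃ len, len = m₄.v 26 := ⟨_, rfl⟩
  obtain ⟨A6, hA6⟩ : ∃ A6, A6 = m₄.a 6 := ⟨_, rfl⟩
  rw [← hlen, ← hA6] at hL4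
  have hlenE := hL4.le
  have hE4 : Env X k len A6 m₄ := by
    refine ⟨hR3.of_eq (fun y _ _ => hv4 y (by omega) (by omega) (by omega)), ?_, ?_, hlen.symm,
      hA6.symm⟩
    · rw [ha4 0 (by omega), hcf.1 0 (by omega), ha2]
    · rw [ha4 1 (by omega), hcf.1 1 (by omega), ha2]
  refine seqA (x := 0) (T := 46 + S) (V.lit (by omega)) ?_ (by simp only [Expr.cost]; omega)
  refine (Tr.seq (T₁ := 5 + S) (T₂ := 2) ?_).le (by omega)
  refine (Tr.forR (x := 8) (e := .reg 7)
    (I := fun h m => Env X k len A6 m ∧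
      m.v 24 = (if ∃ h' < h, cK n < 2 * cnt n μ h' (cK n) then 1 else 0) ∧
      ∀ idx < nL k n, h * cK n ≤ idx →
          Inst (nL k n + 1) idx m ⟨fun _ => 0, fun _ _ _ => 0⟩)
    (T := fun h => 100 + nE G * 81 + ∑ j ∈ Finset.range (cK n),
      (32 + nE G * 50 + 10 * t (h * cK n + j))) (nG k n) (by omega) ?_ ?_ ?_ ?_).le ?_
  · refine ⟨(hE4.setV (by omega) (by omega) 0).setV (by omega) (by omega) 0, ?_, ?_⟩
    · rw [if_neg]
      · rfl
      · rintro ⟨h', h1, -⟩
        omega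
    · intro idx h1 _
      obtain ⟨z1, z2⟩ := hcf.inst (idx' := idx) (by omega) (by omega) (hz2 idx)
      refine ⟨?_, ?_⟩
      · intro x
        show m₄.a 10 x idx = _
        rw [ha4 10 (by omega)]
        exact z1 x
      · intro r i j
        show m₄.a (11 + r) i (j * (nL k n + 1) + idx) = _
        rw [ha4 (11 + r) (by omega)]
        exact z2 r i j
  · rintro h hh m ⟨hE, -, -⟩ _
    have : m.v 7 = nG k n := hE.1.2.2.2.2.2.2
    exact ⟨show m.v 7 < W' by omega, this⟩
  · rintro h hh m ⟨hE, h24, hz⟩ h8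
    refine ((group_tr N X G hL4 hωb hh hω (hrun h hh) m hE h8 hz).mono ?_).le ?_
    · rintro m' ⟨hE', h8', h24', hz'⟩
      refine ⟨h8', hE'.setV (by omega) (by omega) _, ?_, hz'⟩
      rw [setV_v, if_neg (by omega), h24', h24]
      by_cases hc : cK n < 2 * cnt n μ h (cK n)
      · rw [if_pos hc, if_pos ⟨h, by omega, hc⟩]
      · rw [if_neg hc]
        by_cases hex : ∃ h' < h, cK n < 2 * cnt n μ h' (cK n)
        · rw [if_pos hex, if_pos]
          obtain ⟨h', h1, h2⟩ := hex
          exact ⟨h', by omega, h2⟩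
        · rw [if_neg hex, if_neg]
          rintro ⟨h', h1, h2⟩
          by_cases he : h' = h
          · rw [he] at h2
            exact hc h2
          · exact hex ⟨h', by omega, h2⟩
    · have hs : ∑ j ∈ Finset.range (cK n), (32 + len * 50 + 10 * t (h * cK n + j)) ≤
          ∑ j ∈ Finset.range (cK n), (32 + nE G * 50 + 10 * t (h * cK n + j)) := by
        refine Finset.sum_le_sum ?_
        intro j _
        omega
      omega
  · rintro m' ⟨hE', h24, -⟩ _
    have h24W : m'.v 24 < W' := by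
      rw [h24]
      split_ifs <;> omega
    refine trA (x := m'.v 24) (V.reg rfl h24W) ?_ (by decide)
    rw [setV_same, h24]
    show _ ↔ ∃ h < nG k n, cK n < 2 * cnt n μ h (cK n)
    split_ifs with hc
    · exact ⟨fun _ => hc, fun _ => by omega⟩
    · exact ⟨fun h => absurd rfl h, fun h => absurd h hc⟩
  · have : ∀ h, (Expr.reg 7).cost + 6 + (100 + nE G * 81 + ∑ j ∈ Finset.range (cK n),
        (32 + nE G * 50 + 10 * t (h * cK n + j)))
        = 107 + nE G * 81 + ∑ j ∈ Finset.range (cK n),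
        (32 + nE G * 50 + 10 * t (h * cK n + j)) := by
      intro h
      simp only [Expr.cost]
      omega
    simp only [this]
    rw [← hS]
    simp only [Expr.cost]
    omega

end Pool.Agent.W2helper86.ETS
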