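import Pool.Agent.W2helper86.ETS.Num

set_option autoImplicit false

/-!
# Project ETS, piece REDS: the list of the edges
-/

namespace Pool.Agent.W2helper86.ETS

open Pool.Agent.W2helper22.SM Pool.Agent.W2helper22.ETS Pool.Agent.W2helper86.SM
open Pool.Agent.W2helper22.ET (Instance Algo Decides ETFast PatFast tri start Computes Lists
  Instance.enc Instance.Yes kk nU patE roleE labE setLab BigW3 Hit)
open Pool.Agent.W2helper86.ET (V trA trS seqA seqS iteEq iteLt regs_lt enc_out enc_ge2 enc_a0_pos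
  enc_a0_neg enc_a1 enc_a0_le enc_a1_le)

/-- adjacent, for natural numbers -/
def PA {n : ℕ} (G : SimpleGraph (Fin n)) (a b : ℕ) : Prop :=
  ∃ (ha : a < n) (hb : b < n), G.Adj ⟨a, ha⟩ ⟨b, hb⟩

theorem PA.symm {n : ℕ} {G : SimpleGraph (Fin n)} {a b : ℕ} (h : PA G a b) : PA G b a := by
  obtain ⟨ha, hb, h⟩ := h
  exact ⟨hb, ha, h.symm⟩

/-- lexicographic order -/
def before (a b i c : ℕ) : Prop := a < i ∨ (a = i ∧ b < c)

/-- the list of the adjacent pairs before `(i, c)`: `N` pairs `(u e, v e)` -/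
def LI {n : ℕ} (G : SimpleGraph (Fin n)) (i c N : ℕ) (A6 : ℕ → ℕ → ℕ) : Prop :=
  (∀ e < N, PA G (A6 0 e) (A6 1 e) ∧ before (A6 0 e) (A6 1 e) i c) ∧
  (∀ e < N, ∀ e' < N, A6 0 e = A6 0 e' → A6 1 e = A6 1 e' → e = e') ∧
  ∀ a b, PA G a b → before a b i c → ∃ e < N, A6 0 e = a ∧ A6 1 e = b

theorem LI.le {n : ℕ} {G : SimpleGraph (Fin n)} {i c N : ℕ} {A6 : ℕ → ℕ → ℕ}
    (h : LI G i c N A6) : N ≤ nE G := by
  classical
  unfold nE
  rw [Nat.card_eq_fintype_card]
  obtain ⟨h1, h2, -⟩ := h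
  have hP : ∀ e : Fin N, PA G (A6 0 e) (A6 1 e) := fun e => (h1 e e.2).1
  let f : Fin N → {p : Fin n × Fin n // G.Adj p.1 p.2} := fun e =>
    ⟨(⟨A6 0 e, (hP e).choose⟩, ⟨A6 1 e, (hP e).choose_spec.choose⟩),
      (hP e).choose_spec.choose_spec⟩
  have hf : Function.Injective f := by
    intro e e' hee
    have h3 := congrArg (fun x => ((x.1.1 : Fin n) : ℕ)) hee
    have h4 := congrArg (fun x => ((x.1.2 : Fin n) : ℕ)) hee
    exact Fin.ext (h2 e e.2 e' e'.2 h3 h4)
  have := Fintype.card_le_of_injective f hf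
  simpa using this

theorem nE_le {n : ℕ} (G : SimpleGraph (Fin n)) : nE G ≤ n * n := by
  classical
  unfold nE
  rw [Nat.card_eq_fintype_card]
  refine (Fintype.card_subtype_le _).trans ?_
  simp

theorem LI.zero {n : ℕ} {G : SimpleGraph (Fin n)} {A6 : ℕ → ℕ → ℕ} : LI G 0 0 0 A6 := by
  refine ⟨fun e he => absurd he (Nat.not_lt_zero _), fun e he => absurd he (Nat.not_lt_zero _), ?_⟩
  intro a b _ hb
  unfold before at hb
  omega

theorem LI.skip {n : ℕ} {G : SimpleGraph (Fin n)} {i c N : ℕ} {A6 : ℕ → ℕ → ℕ}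
    (h : LI G i c N A6) (hn : ¬ PA G i c) : LI G i (c + 1) N A6 := by
  obtain ⟨h1, h2, h3⟩ := h
  refine ⟨?_, h2, ?_⟩
  · intro e he
    obtain ⟨h4, h5⟩ := h1 e he
    refine ⟨h4, ?_⟩
    unfold before at h5 ⊢
    omega
  · intro a b hab hb
    refine h3 a b hab ?_
    unfold before at hb ⊢
    by_contra hc
    have ha : a = i := by omega
    have hb' : b = c := by omega
    subst ha
    subst hb'
    exact hn hab

theorem LI.add {n : ℕ} {G : SimpleGraph (Fin n)} {i c N : ℕ} {A6 A6' : ℕ → ℕ → ℕ}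
    (h : LI G i c N A6) (hn : PA G i c) (h0 : ∀ e < N, A6' 0 e = A6 0 e)
    (h1 : ∀ e < N, A6' 1 e = A6 1 e) (h0' : A6' 0 N = i) (h1' : A6' 1 N = c) :
    LI G i (c + 1) (N + 1) A6' := by
  obtain ⟨g1, g2, g3⟩ := h
  refine ⟨?_, ?_, ?_⟩
  · intro e he
    by_cases heN : e = N
    · subst heN
      rw [h0', h1']
      exact ⟨hn, Or.inr ⟨rfl, Nat.lt_succ_self _⟩⟩
    · rw [h0 e (by omega), h1 e (by omega)]
      obtain ⟨h4, h5⟩ := g1 e (by omega)
      refine ⟨h4, ?_⟩
      unfold before at h5 ⊢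
      omega
  · have key : ∀ e < N, ¬ (A6 0 e = i ∧ A6 1 e = c) := by
      intro e he hh
      have h5 := (g1 e he).2
      unfold before at h5
      omega
    intro e he e' he' ha hb
    by_cases heN : e = N
    · by_cases heN' : e' = N
      · omega
      · exfalso
        rw [heN, h0', h0 e' (by omega)] at ha
        rw [heN, h1', h1 e' (by omega)] at hb
        exact key e' (by omega) ⟨ha.symm, hb.symm⟩
    · by_cases heN' : e' = N
      · exfalso
        rw [heN', h0', h0 e (by omega)] at ha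
        rw [heN', h1', h1 e (by omega)] at hb
        exact key e (by omega) ⟨ha, hb⟩
      · rw [h0 e (by omega), h0 e' (by omega)] at ha
        rw [h1 e (by omega), h1 e' (by omega)] at hb
        exact g2 e (by omega) e' (by omega) ha hb
  · intro a b hab hb
    by_cases hc : a = i ∧ b = c
    · obtain ⟨rfl, rfl⟩ := hc
      exact ⟨N, Nat.lt_succ_self _, h0', h1'⟩
    · obtain ⟨e, he, ha, hb⟩ := g3 a b hab (by unfold before at hb ⊢; omega)
      exact ⟨e, by omega, by rw [h0 e he]; exact ha, by rw [h1 e he]; exact hb⟩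

theorem LI.row {n : ℕ} {G : SimpleGraph (Fin n)} {i N : ℕ} {A6 : ℕ → ℕ → ℕ}
    (h : LI G i n N A6) : LI G (i + 1) 0 N A6 := by
  obtain ⟨h1, h2, h3⟩ := h
  refine ⟨?_, h2, ?_⟩
  · intro e he
    obtain ⟨h4, h5⟩ := h1 e he
    refine ⟨h4, ?_⟩
    unfold before at h5 ⊢
    omega
  · intro a b hab hb
    refine h3 a b hab ?_
    obtain ⟨ha', hb', -⟩ := hab
    unfold before at hb ⊢
    omega

/-- the registers during the loops -/
def RGS (n k : ℕ) (m : Mem) : Prop :=
  m.v 0 = n ∧ m.v 2 = nL k n + 1 ∧ m.v 3 = Nat.log 2 n ∧ m.v 4 = k ∧ m.v 5 = cK n ∧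
    m.v 6 = nU k n ∧ m.v 7 = nG k n

theorem RGS.of_eq {n k : ℕ} {m m' : Mem} (h : RGS n k m)
    (hv : ∀ y, y ≤ 7 → y ≠ 1 → m'.v y = m.v y) : RGS n k m' := by
  obtain ⟨h0, h2, h3, h4, h5, h6, h7⟩ := h
  exact ⟨(hv 0 (by omega) (by omega)).trans h0, (hv 2 (by omega) (by omega)).trans h2,
    (hv 3 (by omega) (by omega)).trans h3, (hv 4 (by omega) (by omega)).trans h4,
    (hv 5 (by omega) (by omega)).trans h5, (hv 6 (by omega) (by omega)).trans h6,
    (hv 7 (by omega) (by omega)).trans h7⟩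

section ListP

variable {P g : Algo} {p q n k W' : ℕ} (N : Num P g p q n k W')

include N

/-- the program which makes the list -/
theorem list_tr (G : SimpleGraph (Fin n)) {ω' : ℕ → ℕ → ℕ} {μp : Mem}
    (hμ : ∀ i j : Fin n, μp.a 2 i j ≠ 0 ↔ G.Adj i j) (hμW : ∀ i j, μp.a 2 i j < W')
    (m₀ : Mem) (hR : RGS n k m₀) (hp : Inst (nL k n + 1) (nL k n) m₀ μp) :
    Tr W' ω' listP m₀ (7 + n * (12 + n * 50))
      (fun m' => (∀ y, y ≠ 12 → y ≠ 13 → y ≠ 26 → m'.v y = m₀.v y) ∧
        (∀ r, r ≠ 6 → m'.a r = m₀.a r) ∧ LI G n 0 (m'.v 26) (m'.a 6)) := by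
  have hnW := N.nW
  have hLW := N.LW
  have hnW4 := N.nW4
  have hEn := nE_le G
  have h5 : n * n * n + 1 ≤ (n * n * n + 1) * (n + 1) := Nat.le_mul_of_pos_right _ (by omega)
  have h6 : n * n * 1 ≤ n * n * n := Nat.mul_le_mul_left _ N.n1
  have hEW : nE G + 3 < W' := by omega
  have hrow : n * (1 + 6 + (5 + n * 50)) = n * (12 + n * 50) := by ring
  unfold listP
  refine seqA (x := 0) (T := 5 + n * (12 + n * 50)) (V.lit (by omega)) ?_
    (by simp only [Expr.cost]; omega)
  refine (Tr.forR (x := 12) (e := .reg 0)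
    (I := fun i m => (∀ y, y ≠ 12 → y ≠ 13 → y ≠ 26 → m.v y = m₀.v y) ∧
        (∀ r, r ≠ 6 → m.a r = m₀.a r) ∧ LI G i 0 (m.v 26) (m.a 6))
    (T := fun _ => 5 + n * 50) n (by omega) ?_ ?_ ?_ ?_).le ?_
  · refine ⟨?_, fun _ _ => rfl, ?_⟩
    · intro y y12 y13 y26
      rw [setV_v, if_neg y12, setV_v, if_neg y26]
    · show LI G 0 0 0 _
      exact LI.zero
  · rintro i hi m ⟨hv, -, -⟩ _
    have : m.v 0 = n := (hv 0 (by omega) (by omega) (by omega)).trans hR.1
    exact ⟨show m.v 0 < W' by omega, this⟩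
  · rintro i hi m ⟨hv, ha, hL⟩ h12
    refine (Tr.forR (x := 13) (e := .reg 0)
      (I := fun c m => ((∀ y, y ≠ 12 → y ≠ 13 → y ≠ 26 → m.v y = m₀.v y) ∧
        (∀ r, r ≠ 6 → m.a r = m₀.a r) ∧ LI G i c (m.v 26) (m.a 6)) ∧ m.v 12 = i)
      (T := fun _ => 43) n (by omega) ?_ ?_ ?_ ?_).le ?_
    · refine ⟨⟨?_, ha, hL⟩, ?_⟩
      · intro y y12 y13 y26
        rw [setV_v, if_neg y13]
        exact hv y y12 y13 y26
      · rw [setV_v, if_neg (by omega)]
        exact h12
    · rintro c hc m' ⟨⟨hv', -, -⟩, -⟩ _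
      have : m'.v 0 = n := (hv' 0 (by omega) (by omega) (by omega)).trans hR.1
      exact ⟨show m'.v 0 < W' by omega, this⟩
    · rintro c hc m' ⟨⟨hv', ha', hL'⟩, h12'⟩ h13
      have h2' : m'.v 2 = nL k n + 1 := (hv' 2 (by omega) (by omega) (by omega)).trans hR.2.1
      have hpad : c * (nL k n + 1) + nL k n < W' := addr N (by omega) (Nat.lt_succ_self _)
      have hml : c * (nL k n + 1) < W' := by omega
      have hle := hL'.le
      obtain ⟨len, hlen⟩ : ∃ len, len = m'.v 26 := ⟨_, rfl⟩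
      rw [← hlen] at hL' hle
      have v12 : V W' ω' m' (.reg 12) i := V.reg h12' (by omega)
      have v13 : V W' ω' m' (.reg 13) c := V.reg h13 (by omega)
      have vpat : V W' ω' m' patE (1 - (1 - μp.a 2 i c)) := by
        refine V.sub (V.lit (by omega)) (V.sub (V.lit (by omega)) (V.get v12
          (V.add (V.mul v13 (V.reg h2' (by omega)) hml)
            (V.sub (V.reg h2' (by omega)) (V.lit (by omega))) ?_) ?_ (hμW i c)))
        · rw [Nat.add_sub_cancel]
          exact hpad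
        · rw [Nat.add_sub_cancel, ha' 13 (by omega)]
          exact hp.2 2 i c
      have hadj := hμ ⟨i, hi⟩ ⟨c, hc⟩
      refine iteEq vpat (V.lit (by omega)) ?_ ?_ (T := 16) (by decide)
      · intro h1
        have hPA : PA G i c := ⟨hi, hc, hadj.1 (by
          show μp.a 2 i c ≠ 0
          omega)⟩
        refine seqS (a := 0) (b := len) (x := i) (T := 12) (V.lit (by omega))
          (V.reg hlen.symm (by omega)) v12 ?_ (by decide)
        refine seqS (a := 1) (b := len) (x := c) (T := 8) (V.lit (by omega))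
          (V.reg (n := len) hlen.symm (by omega)) (V.reg (n := c) h13 (by omega)) ?_ (by decide)
        refine trA (x := len + 1) (V.add (V.reg (n := len) hlen.symm (by omega))
          (V.lit (by omega)) (by omega)) ?_ (by decide)
        refine ⟨h13, ⟨?_, ?_, ?_⟩, h12'⟩
        · intro y y12 y13 y26
          rw [setV_v, if_neg y13, setV_v, if_neg y26]
          exact hv' y y12 y13 y26
        · intro r hr
          rw [← ha' r hr]
          funext x y
          show ((m'.setA 6 0 len i).setA 6 1 len c).a r x y = m'.a r x y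
          rw [setA_a, if_neg (fun hh => hr hh.1), setA_a, if_neg (fun hh => hr hh.1)]
        · show LI G i (c + 1) (len + 1) (((m'.setA 6 0 len i).setA 6 1 len c).a 6)
          refine hL'.add hPA ?_ ?_ ?_ ?_
          · intro e he
            rw [setA_a, if_neg (by omega), setA_a, if_neg (by omega)]
          · intro e he
            rw [setA_a, if_neg (by omega), setA_a, if_neg (by omega)]
          · rw [setA_a, if_neg (by omega), setA_a, if_pos ⟨rfl, rfl, rfl⟩]
          · rw [setA_a, if_pos ⟨rfl, rfl, rfl⟩]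
      · intro h1
        have hPA : ¬ PA G i c := by
          rintro ⟨_, _, h2⟩
          have := hadj.2 h2
          have h3 : μp.a 2 i c ≠ 0 := this
          omega
        refine (Tr.skip ⟨h13, ⟨?_, ha', ?_⟩, ?_⟩).le (by omega)
        · intro y y12 y13 y26
          rw [setV_v, if_neg y13]
          exact hv' y y12 y13 y26
        · show LI G i (c + 1) (m'.v 26) (m'.a 6)
          rw [← hlen]
          exact hL'.skip hPA
        · rw [setV_v, if_neg (by omega)]
          exact h12'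
    · rintro m' ⟨⟨hv', ha', hL'⟩, h12'⟩ _
      refine ⟨h12', ?_, ha', hL'.row⟩
      intro y y12 y13 y26
      rw [setV_v, if_neg y12]
      exact hv' y y12 y13 y26
    · simp only [Expr.cost, Finset.sum_const, Finset.card_range, smul_eq_mul]
      omega
  · rintro m' hm' _
    exact hm'
  · simp only [Expr.cost, Finset.sum_const, Finset.card_range, smul_eq_mul]
    omega

end ListP

end Pool.Agent.W2helper86.ETS
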