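import Pool.Agent.W2helper86.ET.Red1
import Pool.Agent.W2helper22.ETS.Stm

set_option autoImplicit false

/-!
# Project ETS, piece REDS: numerical facts
-/

namespace Pool.Agent.W2helper86.ETS

open Pool.Agent.W2helper22.SM Pool.Agent.W2helper22.ETS Pool.Agent.W2helper86.SM
open Pool.Agent.W2helper22.ET (Instance Algo Decides ETFast PatFast tri start Computes Lists
  Instance.enc Instance.Yes kk nU patE roleE labE setLab BigW3 Hit)
open Pool.Agent.W2helper86.ET (V trA trS seqA seqS iteEq iteLt regs_lt enc_out enc_ge2 enc_a0_pos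
  enc_a0_neg enc_a1 enc_a0_le enc_a1_le)

/-- the numerical facts; `L = nL k n + 1` -/
structure Num (P g : Algo) (p q n k W' : ℕ) : Prop where
  n1 : 1 ≤ n
  kk : k = p * Nat.log 2 n / q
  nW : 1000 * n + 3000 < W'
  nW4 : 100 * ((n * n * n + 1) * (n + 1)) < W'
  n300 : 4 * n ^ 300 ≤ W'
  nLW : (n + 1) * (nL k n + 2) < W'
  LW : nL k n + 3000 < W'
  bn : 2 ^ bits n ≤ 2 * n
  k3 : 2 ^ k ≤ n * n * n
  U1 : 1 ≤ nU k n
  UU : nU k n ≤ 8 * (n * n * n + 1)
  UW : nU k n < W'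
  hG : nG k n ≤ nL k n
  G100 : 101 * nG k n ≤ nL k n
  KL : cK n ≤ nL k n
  K1 : 1 ≤ cK n
  pW : p < W'
  qW : q < W'
  plW : p * Nat.log 2 n < W'
  W2 : 2 * P.W n ≤ W'
  WL : P.W n * (nL k n + 1) + (nL k n + 1) ≤ W'
  W2g : 2 * g.W n ≤ W'
  WLg : g.W n * (nL k n + 1) + (nL k n + 1) ≤ W'
  mxP : P.prog.mx < W'
  mxg : g.prog.mx < W'

theorem num {P g : Algo} {p q n k W' : ℕ} (hk : k = kk p q n) (h : BigW5 P g p q n W') :
    Num P g p q n k W' := by
  obtain ⟨hn, hq, hpq, h300, hbig⟩ := h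
  rw [← hk] at hbig
  obtain ⟨A, hA⟩ : ∃ A, A = P.W n + g.W n + P.prog.mx + g.prog.mx + p + q + 1000 := ⟨_, rfl⟩
  rw [← hA] at hbig
  have hX : ∀ x y z, x ≤ A → y ≤ (n + 1) ^ 8 → z ≤ nL k n + 2 → 1000 * (x * (y * z)) ≤ W' := by
    intro x y z hx hy hz
    have h1 : x * (y * z) ≤ A * ((n + 1) ^ 8 * (nL k n + 2)) :=
      Nat.mul_le_mul hx (Nat.mul_le_mul hy hz)
    have h2 : 1000 * A * (n + 1) ^ 8 * (nL k n + 2) = 1000 * (A * ((n + 1) ^ 8 * (nL k n + 2))) := by
      ring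
    omega
  have hlog : Nat.log 2 n ≤ n := Nat.log_le_self 2 n
  have hpow : 2 ^ Nat.log 2 n ≤ n := Nat.pow_log_le_self 2 (by omega)
  have hn8 : n + 1 ≤ (n + 1) ^ 8 := Nat.le_self_pow (by norm_num) _
  have h18 : 1 ≤ (n + 1) ^ 8 := Nat.one_le_pow _ _ (by omega)
  have h4 : (n * n * n + 1) * (n + 1) ≤ (n + 1) ^ 8 := by
    calc (n * n * n + 1) * (n + 1) ≤ (n + 1) ^ 3 * (n + 1) := by
          refine Nat.mul_le_mul_right _ ?_
          have : (n + 1) ^ 3 = n * n * n + 3 * (n * n) + 3 * n + 1 := by ring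
          omega
      _ = (n + 1) ^ 4 := by ring
      _ ≤ (n + 1) ^ 8 := Nat.pow_le_pow_right (by omega) (by norm_num)
  clear hbig
  generalize (n + 1) ^ 8 = E at hX hn8 h18 h4
  have hK1 : 1 ≤ cK n := by unfold cK; omega
  have hK100 : 101 ≤ cK n := by unfold cK bits; omega
  have hU1 : 1 ≤ nU k n := Nat.mul_pos (by norm_num) (Nat.succ_pos _)
  have hG1 : 1 ≤ nG k n := by
    unfold nG
    have : 1 ≤ bits n ^ 2 := Nat.one_le_pow _ _ (by unfold bits; omega)
    have := Nat.mul_le_mul this hU1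
    omega
  have a1 : 1000 * A ≤ W' := by
    have h := hX A 1 1 le_rfl h18 (by omega)
    exact le_trans (le_of_eq (by ring)) h
  have a2 : 1000000 * (n + 1) ≤ W' := by
    have h := hX 1000 (n + 1) 1 (by omega) hn8 (by omega)
    exact le_trans (le_of_eq (by ring)) h
  have a3 : 1000000 * (nL k n + 2) ≤ W' := by
    have h := hX 1000 1 (nL k n + 2) (by omega) h18 le_rfl
    exact le_trans (le_of_eq (by ring)) h
  have a4 : 1000000 * ((n + 1) * (nL k n + 2)) ≤ W' := by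
    have h := hX 1000 (n + 1) (nL k n + 2) (by omega) hn8 le_rfl
    exact le_trans (le_of_eq (by ring)) h
  have a5 : 1000000 * ((n * n * n + 1) * (n + 1)) ≤ W' := by
    have h := hX 1000 _ 1 (by omega) h4 (by omega)
    exact le_trans (le_of_eq (by ring)) h
  have a6 : 1000 * (p * (n + 1)) ≤ W' := by
    have h := hX p (n + 1) 1 (by omega) hn8 (by omega)
    exact le_trans (le_of_eq (by ring)) h
  have a7 : p * Nat.log 2 n ≤ p * (n + 1) := Nat.mul_le_mul_left _ (by omega)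
  have a7' : 1 ≤ p * (n + 1) ∨ p = 0 := by
    rcases Nat.eq_zero_or_pos p with h | h
    · exact Or.inr h
    · exact Or.inl (Nat.mul_pos h (by omega))
  have a8 : ∀ x, x + 1 ≤ A → 1000 * (x * (nL k n + 1) + (nL k n + 1)) ≤ W' := by
    intro x hx
    have h := hX (x + 1) 1 (nL k n + 1) hx h18 (by omega)
    exact le_trans (le_of_eq (by ring)) h
  have b1 := a8 (P.W n) (by omega)
  have b2 := a8 (g.W n) (by omega)
  have hkl : k ≤ 3 * Nat.log 2 n := by
    rw [hk]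
    unfold kk
    apply Nat.div_le_of_le_mul
    calc p * Nat.log 2 n ≤ (3 * q) * Nat.log 2 n := Nat.mul_le_mul_right _ hpq
      _ = q * (3 * Nat.log 2 n) := by ring
  have hk3 : 2 ^ k ≤ n * n * n := by
    calc 2 ^ k ≤ 2 ^ (3 * Nat.log 2 n) := Nat.pow_le_pow_right (by norm_num) hkl
      _ = 2 ^ Nat.log 2 n * 2 ^ Nat.log 2 n * 2 ^ Nat.log 2 n := by ring
      _ ≤ n * n * n := Nat.mul_le_mul (Nat.mul_le_mul hpow hpow) hpow
  have hUU : nU k n ≤ 8 * (n * n * n + 1) := by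
    unfold nU
    have h5 : n ^ 3 / 2 ^ k ≤ n ^ 3 := Nat.div_le_self _ _
    have h6 : n ^ 3 = n * n * n := by ring
    omega
  have h7 : n * n * n + 1 ≤ (n * n * n + 1) * (n + 1) := Nat.le_mul_of_pos_right _ (by omega)
  have hbn : 2 ^ bits n ≤ 2 * n := by
    unfold bits
    rw [pow_succ]
    omega
  have hGL : nG k n ≤ nL k n := by
    unfold nL
    exact Nat.le_mul_of_pos_right _ hK1
  have hG100 : 101 * nG k n ≤ nL k n := by
    unfold nL
    rw [Nat.mul_comm]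
    exact Nat.mul_le_mul_left _ hK100
  have hKL : cK n ≤ nL k n := by
    unfold nL
    exact Nat.le_mul_of_pos_left _ hG1
  have c1 : 1 ≤ (n + 1) * (nL k n + 2) := Nat.mul_pos (by omega) (by omega)
  have c2 : 1 ≤ (n * n * n + 1) * (n + 1) := Nat.mul_pos (by omega) (by omega)
  refine ⟨hn, hk, by omega, by omega, h300, by omega, by omega, hbn, hk3, hU1, hUU, by omega,
    hGL, hG100, hKL, hK1, by omega, by omega, by omega, by omega, by omega, by omega, by omega,
    by omega, by omega⟩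

section Group

variable {P g : Algo} {p q n k W' : ℕ} (N : Num P g p q n k W')

include N

/-- the numerical facts for the group `h` -/
theorem grp {h : ℕ} (hh : h < nG k n) :
    s1 k n h < bits n ∧ s2 k n h < bits n ∧ s3 k n h ≤ k ∧ i1 k n h < nU k n ∧
      i2 k n h < b2 k n h ∧ i3 k n h < b3 k n h := by
  have hU := N.U1
  have hb : 0 < bits n := by unfold bits; omega
  have h1 : h / 400 < bits n ^ 2 * nU k n := by
    rw [Nat.div_lt_iff_lt_mul (by norm_num)]
    exact hh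
  have h2 : h / 400 / nU k n < bits n * bits n := by
    rw [Nat.div_lt_iff_lt_mul (by omega)]
    rw [← pow_two]
    exact h1
  have h3 : h / 400 % nU k n < nU k n := Nat.mod_lt _ (by omega)
  refine ⟨?_, Nat.mod_lt _ hb, ?_, ?_, Nat.mod_lt _ (Nat.succ_pos _), Nat.mod_lt _ (Nat.succ_pos _)⟩
  · unfold s1
    rw [Nat.div_lt_iff_lt_mul hb]
    exact h2
  · unfold s3
    omega
  · unfold i1
    exact lt_of_le_of_lt ((Nat.div_le_self _ _).trans (Nat.div_le_self _ _)) h3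

theorem pow_s {s : ℕ} (hs : s < bits n) : 2 ^ s ≤ n := by
  have hn := N.n1
  have hpow : 2 ^ Nat.log 2 n ≤ n := Nat.pow_log_le_self 2 (by omega)
  refine le_trans (Nat.pow_le_pow_right (by norm_num) ?_) hpow
  unfold bits at hs
  omega

theorem pow_k {s : ℕ} (hs : s ≤ k) : 2 ^ s ≤ n * n * n :=
  le_trans (Nat.pow_le_pow_right (by norm_num) hs) N.k3

theorem mul_i1 {h : ℕ} (hh : h < nG k n) :
    i1 k n h * 2 ^ s1 k n h ≤ 8 * ((n * n * n + 1) * (n + 1)) := by
  obtain ⟨g1, g2, g3, g4, g5, g6⟩ := grp N hh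
  have h1 := N.UU
  have h2 := pow_s N g1
  calc i1 k n h * 2 ^ s1 k n h ≤ (8 * (n * n * n + 1)) * (n + 1) :=
        Nat.mul_le_mul (by omega) (by omega)
    _ = 8 * ((n * n * n + 1) * (n + 1)) := by ring

theorem mul_i2 {h : ℕ} (hh : h < nG k n) : i2 k n h * 2 ^ s2 k n h ≤ n := by
  obtain ⟨g1, g2, g3, g4, g5, g6⟩ := grp N hh
  have h1 : i2 k n h ≤ n / 2 ^ s2 k n h := by
    unfold b2 at g5
    omega
  exact (Nat.mul_le_mul_right _ h1).trans (Nat.div_mul_le_self _ _)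

theorem mul_i3 {h : ℕ} (hh : h < nG k n) : i3 k n h * 2 ^ s3 k n h ≤ n := by
  obtain ⟨g1, g2, g3, g4, g5, g6⟩ := grp N hh
  have h1 : i3 k n h ≤ n / 2 ^ s3 k n h := by
    unfold b3 at g6
    omega
  exact (Nat.mul_le_mul_right _ h1).trans (Nat.div_mul_le_self _ _)

/-- the labels are words -/
theorem lab_lt {h : ℕ} (hh : h < nG k n) (ω' : ℕ → ℕ → ℕ) (x : ℕ) : lab k n ω' h x < W' := by
  obtain ⟨g1, g2, g3, g4, g5, g6⟩ := grp N hh
  have h4 := N.nW4
  have h5 : n * n * n + 1 ≤ (n * n * n + 1) * (n + 1) := Nat.le_mul_of_pos_right _ (by omega)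
  have h6 := N.nW
  have m1 := mul_i1 N hh
  have m2 := mul_i2 N hh
  have m3 := mul_i3 N hh
  have p1 := pow_s N g1
  have p2 := pow_s N g2
  have p3 := pow_k N g3
  have q1 : ω' (2 * x + 1) (2 * h + 1) % 2 ^ s1 k n h < 2 ^ s1 k n h :=
    Nat.mod_lt _ (Nat.two_pow_pos _)
  have q2 : ω' (2 * x + 1) (2 * h + 1) % 2 ^ s2 k n h < 2 ^ s2 k n h :=
    Nat.mod_lt _ (Nat.two_pow_pos _)
  have q3 : ω' (2 * x + 1) (2 * h + 1) % 2 ^ s3 k n h < 2 ^ s3 k n h :=
    Nat.mod_lt _ (Nat.two_pow_pos _)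
  unfold lab
  split_ifs
  · omega
  · omega
  · omega
  · omega

/-- the address of the entry in column `c` of the copy `idx` is a word -/
theorem addr {c idx : ℕ} (hc : c ≤ n) (hidx : idx < nL k n + 1) :
    c * (nL k n + 1) + idx < W' := by
  have h1 : c * (nL k n + 1) ≤ n * (nL k n + 1) := Nat.mul_le_mul_right _ hc
  have h2 : (n + 1) * (nL k n + 2) = n * (nL k n + 1) + n + nL k n + 2 := by ring
  have h3 := N.nLW
  omega

end Group

theorem idx_lt {n k h j : ℕ} (hh : h < nG k n) (hj : j < cK n) : h * cK n + j < nL k n := by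
  unfold nL
  have : (h + 1) * cK n ≤ nG k n * cK n := Nat.mul_le_mul_right _ hh
  have h2 : (h + 1) * cK n = h * cK n + cK n := by ring
  omega

end Pool.Agent.W2helper86.ETS
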