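import Pool.Agent.W2helper86.ETS.List

set_option autoImplicit false

/-!
# Project ETS, piece REDS: the input of a copy
-/

namespace Pool.Agent.W2helper86.ETS

open Pool.Agent.W2helper22.SM Pool.Agent.W2helper22.ETS Pool.Agent.W2helper86.SM
open Pool.Agent.W2helper22.ET (Instance Algo Decides ETFast PatFast tri start Computes Lists
  Instance.enc Instance.Yes kk nU patE roleE labE setLab BigW3 Hit)
open Pool.Agent.W2helper86.ET (V trA trS seqA seqS iteEq iteLt regs_lt enc_out enc_ge2 enc_a0_pos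
  enc_a0_neg enc_a1 enc_a0_le enc_a1_le)

section Enc

variable {n : ℕ} (X : Instance n) (G : SimpleGraph (Fin n)) (l : ℕ → ℕ)

theorem pull_no {i j : ℕ} (h : ¬ PA G i j) (r : ℕ) : (pull X G l).enc.a r i j = 0 := by
  by_cases hij : i < n ∧ j < n
  · have hG : ¬ G.Adj ⟨i, hij.1⟩ ⟨j, hij.2⟩ := fun hG => h ⟨hij.1, hij.2, hG⟩
    by_cases hr0 : r = 0
    · subst hr0
      refine enc_a0_neg _ hij ?_
      rintro ⟨h3, -⟩
      exact hG h3
    · by_cases hr1 : r = 1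
      · subst hr1
        rw [enc_a1 _ hij]
        unfold pull
        simp only
        rw [dif_neg (fun hh => hG hh.1)]
        simp
      · exact enc_ge2 _ _ _ _ (by omega)
  · exact enc_out _ _ _ _ hij

theorem pull_a1 {i j : ℕ} (h : PA G i j) :
    (pull X G l).enc.a 1 i j = X.enc.a 1 (l i) (l j) := by
  obtain ⟨hi, hj, hG⟩ := h
  rw [enc_a1 _ ⟨hi, hj⟩]
  unfold pull
  simp only
  by_cases h : l i < n ∧ l j < n
  · rw [dif_pos ⟨hG, h⟩, enc_a1 X h]
  · rw [dif_neg (fun hh => h hh.2), enc_out X 1 _ _ h]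
    simp

theorem pull_a0 {i j : ℕ} (h : PA G i j) :
    (pull X G l).enc.a 0 i j = X.enc.a 0 (l i) (l j) := by
  obtain ⟨hi, hj, hG⟩ := h
  by_cases h : l i < n ∧ l j < n
  · by_cases hX : X.E.Adj ⟨l i, h.1⟩ ⟨l j, h.2⟩
    · rw [enc_a0_pos X h hX, enc_a0_pos (pull X G l) ⟨hi, hj⟩ ⟨hG, h.1, h.2, hX⟩]
    · rw [enc_a0_neg X h hX, enc_a0_neg (pull X G l) ⟨hi, hj⟩]
      rintro ⟨-, _, _, h3⟩
      exact hX h3
  · rw [enc_out X 0 _ _ h, enc_a0_neg (pull X G l) ⟨hi, hj⟩]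
    rintro ⟨-, h1, h2, -⟩
    exact h ⟨h1, h2⟩

end Enc

open Classical in
/-- the memory of a copy with the part of the input at the first `l` pairs of the list -/
noncomputable def part (E : ℕ → ℕ → ℕ → ℕ) (A6 : ℕ → ℕ → ℕ) (l : ℕ) : Mem :=
  ⟨fun _ => 0, fun r i c => if ∃ e < l, A6 0 e = i ∧ A6 1 e = c then E r i c else 0⟩

theorem part_zero {E : ℕ → ℕ → ℕ → ℕ} {A6 : ℕ → ℕ → ℕ} :
    part E A6 0 = ⟨fun _ => 0, fun _ _ _ => 0⟩ := by
  unfold part
  simp

theorem part_step {E : ℕ → ℕ → ℕ → ℕ} {A6 : ℕ → ℕ → ℕ} (hE : ∀ r, 2 ≤ r → ∀ i c, E r i c = 0)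
    (l : ℕ) :
    ((part E A6 l).setA 0 (A6 0 l) (A6 1 l) (E 0 (A6 0 l) (A6 1 l))).setA 1 (A6 0 l) (A6 1 l)
      (E 1 (A6 0 l) (A6 1 l)) = part E A6 (l + 1) := by
  unfold part Mem.setA
  simp only
  congr 1
  funext r i c
  by_cases h : i = A6 0 l ∧ c = A6 1 l
  · obtain ⟨rfl, rfl⟩ := h
    have hex : ∃ e < l + 1, A6 0 e = A6 0 l ∧ A6 1 e = A6 1 l := ⟨l, by omega, rfl, rfl⟩
    rw [if_pos hex]
    by_cases h1 : r = 1
    · subst h1
      simp
    · by_cases h0 : r = 0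
      · subst h0
        simp
      · simp [h0, h1, hE r (by omega)]
  · rw [if_neg (fun hh => h hh.2), if_neg (fun hh => h hh.2)]
    by_cases h2 : ∃ e < l, A6 0 e = i ∧ A6 1 e = c
    · rw [if_pos h2, if_pos]
      obtain ⟨e, he, h3⟩ := h2
      exact ⟨e, by omega, h3⟩
    · rw [if_neg h2, if_neg]
      rintro ⟨e, he, h3, h4⟩
      by_cases hel : e = l
      · subst hel
        exact h ⟨h3.symm, h4.symm⟩
      · exact h2 ⟨e, by omega, h3, h4⟩

theorem part_all {E : ℕ → ℕ → ℕ → ℕ} {n : ℕ} {G : SimpleGraph (Fin n)} {A6 : ℕ → ℕ → ℕ} {l : ℕ}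
    (hL : LI G n 0 l A6) (hE : ∀ r i c, ¬ PA G i c → E r i c = 0) :
    part E A6 l = ⟨fun _ => 0, E⟩ := by
  unfold part
  congr 1
  funext r i c
  by_cases h : PA G i c
  · obtain ⟨e, he, h1, h2⟩ := hL.2.2 i c h (by
      obtain ⟨hi, -, -⟩ := h
      exact Or.inl hi)
    rw [if_pos ⟨e, he, h1, h2⟩]
  · rw [hE r i c h]
    simp

/-- writing to the arrays of the copy `idx`; its present state is `ν` -/
def WK (L idx : ℕ) (m₀ m ν : Mem) : Prop :=
  (∀ y, y ≠ 10 → y ≠ 12 → y ≠ 13 → m.v y = m₀.v y) ∧ CF L idx m₀ m ∧ Inst L idx m ν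

theorem WK.setV {L idx : ℕ} {m₀ m ν : Mem} (h : WK L idx m₀ m ν) {x : ℕ}
    (hx : x = 10 ∨ x = 12 ∨ x = 13) (n : ℕ) : WK L idx m₀ (m.setV x n) ν := by
  refine ⟨?_, h.2.1, h.2.2⟩
  intro y h0 h1 h2
  rw [setV_v, if_neg (by omega)]
  exact h.1 y h0 h1 h2

theorem WK.store {L idx : ℕ} {m₀ m ν : Mem} (h : WK L idx m₀ m ν) (hidx : idx < L)
    (r i c w : ℕ) :
    WK L idx m₀ (m.setA (11 + r) i (c * L + idx) w) (ν.setA r i c w) := by
  obtain ⟨hI, hF⟩ := store_inst hidx h.2.2 r i c w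
  exact ⟨h.1, h.2.1.trans (CF.of_sim hF), hI⟩

theorem WK.congr {L idx : ℕ} {m₀ m ν ν' : Mem} (h : WK L idx m₀ m ν) (hD : ν = ν') :
    WK L idx m₀ m ν' := hD ▸ h

section Fill

variable {P g : Algo} {p q n k W' : ℕ} (N : Num P g p q n k W')

include N

/-- the loop which writes the input of a copy -/
theorem fill_tr (X : Instance n) (G : SimpleGraph (Fin n)) {ω' : ℕ → ℕ → ℕ} {len : ℕ} {h idx : ℕ}
    (hh : h < nG k n) (hidx : idx < nL k n) (m₀ : Mem) (hR : RGS n k m₀)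
    (h0 : m₀.a 0 = X.enc.a 0) (h1 : m₀.a 1 = X.enc.a 1) (h26 : m₀.v 26 = len)
    (hL : LI G n 0 len (m₀.a 6))
    (h5 : ∀ x y, PA G x y → m₀.a 5 0 x = lab k n ω' h x)
    (hv1 : m₀.v 1 = idx) (hz : Inst (nL k n + 1) idx m₀ ⟨fun _ => 0, fun _ _ _ => 0⟩) :
    Tr W' ω' (forR 10 (.reg 26)
        (.seq (.assign 12 (.get 6 (.lit 0) (.reg 10)))
        (.seq (.assign 13 (.get 6 (.lit 1) (.reg 10)))
        (.seq (.store 11 (.reg 12) (eAdd (eMul (.reg 13) (.reg 2)) (.reg 1))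
            (.get 0 (.get 5 (.lit 0) (.reg 12)) (.get 5 (.lit 0) (.reg 13))))
          (.store 12 (.reg 12) (eAdd (eMul (.reg 13) (.reg 2)) (.reg 1))
            (.get 1 (.get 5 (.lit 0) (.reg 12)) (.get 5 (.lit 0) (.reg 13)))))))) m₀
      (5 + len * 50)
      (fun m' => WK (nL k n + 1) idx m₀ m' ⟨fun _ => 0, (pull X G (lab k n ω' h)).enc.a⟩) := by
  have hnW := N.nW
  have hLW := N.LW
  have h300 := N.n300
  have h300' : 1 ≤ n ^ 300 := Nat.one_le_pow _ _ N.n1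
  have hnW4 := N.nW4
  have hEn := nE_le G
  have hlenE := hL.le
  have h7 : n * n * n + 1 ≤ (n * n * n + 1) * (n + 1) := Nat.le_mul_of_pos_right _ (by omega)
  have h8 : n * n * 1 ≤ n * n * n := Nat.mul_le_mul_left _ N.n1
  have hlW : len + 3 < W' := by omega
  have hidx' : idx < nL k n + 1 := by omega
  obtain ⟨A6, hA6⟩ : ∃ A6, A6 = m₀.a 6 := ⟨_, rfl⟩
  rw [← hA6] at hL
  obtain ⟨E, hEd⟩ : ∃ E, E = (pull X G (lab k n ω' h)).enc.a := ⟨_, rfl⟩
  have hE2 : ∀ r, 2 ≤ r → ∀ i c, E r i c = 0 := by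
    intro r hr i c
    rw [hEd]
    exact enc_ge2 _ _ _ _ hr
  have hEn : ∀ r i c, ¬ PA G i c → E r i c = 0 := by
    intro r i c hn
    rw [hEd]
    exact pull_no X G _ hn r
  have hbase : WK (nL k n + 1) idx m₀ m₀ (part E A6 0) :=
    ⟨fun _ _ _ _ => rfl, CF.refl _ _ _, by rw [part_zero]; exact hz⟩
  refine (Tr.forR (x := 10) (e := .reg 26)
    (I := fun l m => WK (nL k n + 1) idx m₀ m (part E A6 l))
    (T := fun _ => 43) len (by omega) ?_ ?_ ?_ ?_).le ?_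
  · exact hbase.setV (Or.inl rfl) 0
  · intro l hl m hm _
    have : m.v 26 = len := (hm.1 26 (by omega) (by omega) (by omega)).trans h26
    exact ⟨show m.v 26 < W' by omega, this⟩
  · intro l hl m hm h10
    obtain ⟨hPA, -⟩ := hL.1 l hl
    obtain ⟨i, hi⟩ : ∃ i, i = A6 0 l := ⟨_, rfl⟩
    obtain ⟨c, hc⟩ : ∃ c, c = A6 1 l := ⟨_, rfl⟩
    rw [← hi, ← hc] at hPA
    obtain ⟨hin, hcn, -⟩ := id hPA
    have hm6 : m.a 6 = A6 := (hm.2.1.1 6 (by omega)).trans hA6.symm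
    have hm5 : m.a 5 = m₀.a 5 := hm.2.1.1 5 (by omega)
    refine seqA (x := i) (T := 39) (V.get (V.lit (by omega)) (V.reg h10 (by omega))
      (by rw [hm6]; exact hi.symm) (by omega)) ?_ (by decide)
    refine seqA (x := c) (T := 35) (V.get (V.lit (by omega)) (V.reg (n := l) h10 (by omega))
      (by
        show m.a 6 1 l = c
        rw [hm6]; exact hc.symm) (by omega)) ?_ (by decide)
    have hm' : WK (nL k n + 1) idx m₀ ((m.setV 12 i).setV 13 c) (part E A6 l) :=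
      (hm.setV (by omega) i).setV (by omega) c
    obtain ⟨m', hm'e⟩ : ∃ m', m' = (m.setV 12 i).setV 13 c := ⟨_, rfl⟩
    rw [← hm'e] at hm' ⊢
    have h12' : m'.v 12 = i := by rw [hm'e]; rfl
    have h13' : m'.v 13 = c := by rw [hm'e]; rfl
    have h10' : m'.v 10 = l := by rw [hm'e]; exact h10
    have hm5' : m'.a 5 = m₀.a 5 := by rw [hm'e]; exact hm5
    have h1' : m'.v 1 = idx := (hm'.1 1 (by omega) (by omega) (by omega)).trans hv1
    have h2' : m'.v 2 = nL k n + 1 := (hm'.1 2 (by omega) (by omega) (by omega)).trans hR.2.1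
    have had : c * (nL k n + 1) + idx < W' := addr N (by omega) hidx'
    have hml : c * (nL k n + 1) < W' := by omega
    have va : ∀ m'' : Mem, m''.v = m'.v →
        V W' ω' m'' (eAdd (eMul (.reg 13) (.reg 2)) (.reg 1)) (c * (nL k n + 1) + idx) := by
      intro m'' hv
      refine V.add (V.mul (V.reg (by rw [hv]; exact h13') (by omega))
        (V.reg (by rw [hv]; exact h2') (by omega)) hml) (V.reg (by rw [hv]; exact h1')
        (by omega)) had
    have v12 : ∀ m'' : Mem, m''.v = m'.v → V W' ω' m'' (.reg 12) i := by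
      intro m'' hv
      exact V.reg (by rw [hv]; exact h12') (by omega)
    have v13 : ∀ m'' : Mem, m''.v = m'.v → V W' ω' m'' (.reg 13) c := by
      intro m'' hv
      exact V.reg (by rw [hv]; exact h13') (by omega)
    have vli : ∀ m'' : Mem, m''.v = m'.v → m''.a 5 = m'.a 5 →
        V W' ω' m'' (.get 5 (.lit 0) (.reg 12)) (lab k n ω' h i) := by
      intro m'' hv ha
      refine V.get (V.lit (by omega)) (v12 m'' hv) ?_ (lab_lt N hh ω' i)
      rw [ha, hm5']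
      exact h5 i c hPA
    have vlc : ∀ m'' : Mem, m''.v = m'.v → m''.a 5 = m'.a 5 →
        V W' ω' m'' (.get 5 (.lit 0) (.reg 13)) (lab k n ω' h c) := by
      intro m'' hv ha
      refine V.get (V.lit (by omega)) (v13 m'' hv) ?_ (lab_lt N hh ω' c)
      rw [ha, hm5']
      exact h5 c i hPA.symm
    have a0le := enc_a0_le X (lab k n ω' h i) (lab k n ω' h c)
    have a1le := enc_a1_le X (lab k n ω' h i) (lab k n ω' h c)
    have e0 : E 0 i c = X.enc.a 0 (lab k n ω' h i) (lab k n ω' h c) := by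
      rw [hEd]
      exact pull_a0 X G _ hPA
    have e1 : E 1 i c = X.enc.a 1 (lab k n ω' h i) (lab k n ω' h c) := by
      rw [hEd]
      exact pull_a1 X G _ hPA
    have v0 : V W' ω' m' (.get 0 (.get 5 (.lit 0) (.reg 12))
        (.get 5 (.lit 0) (.reg 13))) (E 0 i c) := by
      rw [e0]
      refine V.get (vli m' rfl rfl) (vlc m' rfl rfl) ?_ (by omega)
      rw [hm'.2.1.1 0 (by omega), h0]
    obtain ⟨m₁, hm₁⟩ : ∃ m₁, m₁ = m'.setA 11 i (c * (nL k n + 1) + idx) (E 0 i c) := ⟨_, rfl⟩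
    have hv₁ : m₁.v = m'.v := by rw [hm₁]; rfl
    have ha₁ : ∀ r, r ≠ 11 → m₁.a r = m'.a r := by
      intro r hr
      rw [hm₁]
      funext x y
      rw [setA_a, if_neg (fun hh => hr hh.1)]
    have v1 : V W' ω' m₁ (.get 1 (.get 5 (.lit 0) (.reg 12))
        (.get 5 (.lit 0) (.reg 13))) (E 1 i c) := by
      rw [e1]
      refine V.get (vli m₁ hv₁ (ha₁ 5 (by omega))) (vlc m₁ hv₁ (ha₁ 5 (by omega))) ?_ (by omega)
      rw [ha₁ 1 (by omega), hm'.2.1.1 1 (by omega), h1]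
    refine seqS (T := 21) (v12 m' rfl) (va m' rfl) v0 ?_ (by decide)
    rw [← hm₁]
    refine trS (v12 m₁ hv₁) (va m₁ hv₁) v1 ?_ (by decide)
    refine ⟨?_, ?_⟩
    · show m₁.v 10 = l
      rw [hv₁]
      exact h10'
    · refine WK.setV ?_ (Or.inl rfl) _
      have hst := part_step (A6 := A6) hE2 l
      rw [← hi, ← hc] at hst
      rw [hm₁]
      exact ((hm'.store hidx' 0 i c (E 0 i c)).store hidx' 1 i c (E 1 i c)).congr hst
  · intro m' hm' _
    rw [← hEd]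
    exact hm'.congr (part_all hL hEn)
  · simp only [Expr.cost, Finset.sum_const, Finset.card_range, smul_eq_mul]
    omega

end Fill

end Pool.Agent.W2helper86.ETS
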