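import Pool.Agent.W2helper86.ETS.Red1
import Pool.Agent.W2helper86.ET.Red2

set_option autoImplicit false

/-!
# Project ETS, piece REDS: the copies of a group
-/

namespace Pool.Agent.W2helper86.ETS

open Pool.Agent.W2helper22.SM Pool.Agent.W2helper22.ETS Pool.Agent.W2helper86.SM
open Pool.Agent.W2helper22.ET (Instance Algo Decides ETFast PatFast tri start Computes Lists
  Instance.enc Instance.Yes kk nU patE roleE labE setLab BigW3 Hit)
open Pool.Agent.W2helper86.ET (V trA trS seqA seqS iteEq iteLt regs_lt enc_out enc_ge2 enc_a0_pos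
  enc_a0_neg enc_a1 enc_a0_le enc_a1_le cnt cnt_succ cnt_le)

/-- the part of the memory which is not changed by the copies -/
def Env {n : ℕ} (X : Instance n) (k len : ℕ) (A6 : ℕ → ℕ → ℕ) (m : Mem) : Prop :=
  RGS n k m ∧ m.a 0 = X.enc.a 0 ∧ m.a 1 = X.enc.a 1 ∧ m.v 26 = len ∧ m.a 6 = A6

theorem Env.setV {n : ℕ} {X : Instance n} {k len : ℕ} {A6 : ℕ → ℕ → ℕ} {m : Mem}
    (h : Env X k len A6 m) {x : ℕ} (hx : 8 ≤ x ∨ x = 1) (hx' : x ≠ 26) (a : ℕ) :
    Env X k len A6 (m.setV x a) := by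
  refine ⟨h.1.of_eq ?_, h.2.1, h.2.2.1, ?_, h.2.2.2.2⟩
  · intro y hy hy1
    rw [setV_v, if_neg (by omega)]
  · rw [setV_v, if_neg (by omega)]
    exact h.2.2.2.1

theorem Env.cf {n : ℕ} {X : Instance n} {k len : ℕ} {A6 : ℕ → ℕ → ℕ} {m m' : Mem}
    (h : Env X k len A6 m) (hv : ∀ y, y ≤ 7 → y ≠ 1 → m'.v y = m.v y) (hv' : m'.v 26 = m.v 26)
    {idx : ℕ} (hcf : CF (nL k n + 1) idx m m') : Env X k len A6 m' :=
  ⟨h.1.of_eq hv, (hcf.1 0 (by omega)).trans h.2.1, (hcf.1 1 (by omega)).trans h.2.2.1,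
    hv'.trans h.2.2.2.1, (hcf.1 6 (by omega)).trans h.2.2.2.2⟩

section Copy

variable {P g : Algo} {p q n k W' : ℕ} (N : Num P g p q n k W')

include N

/-- one copy -/
theorem copy_tr (X : Instance n) (G : SimpleGraph (Fin n)) {ω' : ℕ → ℕ → ℕ} {ω : ℕ → ℕ → ℕ}
    {len : ℕ} {A6 : ℕ → ℕ → ℕ} (hL : LI G n 0 len A6)
    {h j : ℕ} (hh : h < nG k n) (hj : j < cK n) {ν : Mem} {t : ℕ}
    (hω : ∀ i < P.W n, ∀ j' < P.W n,
      ω' (2 * i) (j' * (nL k n + 1) + (h * cK n + j)) = ω i j')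
    (hrun : Runs (P.W n) ω P.prog (pull X G (lab k n ω' h)).enc ν t)
    (m : Mem) (hE : Env X k len A6 m) (h5 : ∀ x y, PA G x y → m.a 5 0 x = lab k n ω' h x)
    (h8 : m.v 8 = h) (h9 : m.v 9 = j)
    (hz : Inst (nL k n + 1) (h * cK n + j) m ⟨fun _ => 0, fun _ _ _ => 0⟩) {c : ℕ}
    (h23 : m.v 23 = c) (hc : c + 1 < W') :
    Tr W' ω' (copyP P) m (25 + len * 50 + 10 * t)
      (fun m' => (∀ y, y ≠ 1 → y ≠ 10 → y ≠ 12 → y ≠ 13 → y ≠ 23 → m'.v y = m.v y) ∧
        m'.v 23 = c + (1 - (1 - ν.v 1)) ∧ CF (nL k n + 1) (h * cK n + j) m m') := by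
  have hidx := idx_lt hh hj
  obtain ⟨idx, hidxe⟩ : ∃ idx, idx = h * cK n + j := ⟨_, rfl⟩
  have hnW := N.nW
  have hLW := N.LW
  have hKL := N.KL
  have hGL := N.hG
  have hW2 := N.W2
  obtain ⟨hR, h0, h1, h26, h6⟩ := hE
  have hb : h * cK n < W' := by omega
  rw [← hidxe] at hω hz hidx ⊢
  unfold copyP
  refine seqA (x := idx) (T := 19 + len * 50 + 10 * t)
    ((V.add (V.mul (V.reg h8 (by omega)) (V.reg hR.2.2.2.2.1 (by omega)) hb)
      (V.reg h9 (by omega)) (by omega)).cast hidxe.symm) ?_ (by simp only [Expr.cost]; omega)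
  obtain ⟨m₁, hm₁⟩ : ∃ m₁, m₁ = m.setV 1 idx := ⟨_, rfl⟩
  have hv1 : ∀ y, y ≠ 1 → m₁.v y = m.v y := by
    intro y hy
    rw [hm₁, setV_v, if_neg hy]
  have h11 : m₁.v 1 = idx := by rw [hm₁]; simp
  have ha1 : m₁.a = m.a := by rw [hm₁]; rfl
  have hR1 : RGS n k m₁ := hR.of_eq (fun y _ hy => hv1 y hy)
  rw [← hm₁]
  refine (Tr.seq (T₁ := 5 + len * 50) (T₂ := 14 + 10 * t)
    ((fill_tr N X G hh hidx m₁ hR1 (by rw [ha1]; exact h0) (by rw [ha1]; exact h1)
      (by rw [hv1 26 (by omega)]; exact h26) (by rw [ha1, h6]; exact hL)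
      (by rw [ha1]; exact h5) h11 (by rw [hm₁]; exact hz)).mono ?_)).le (by omega)
  intro m₂ hm₂
  have hv2 : ∀ y, y ≠ 10 → y ≠ 12 → y ≠ 13 → m₂.v y = m₁.v y := fun y h0 h1 h2 => hm₂.1 y h0 h1 h2
  have hR2 : RGS n k m₂ := hR1.of_eq (fun y hy _ => hv2 y (by omega) (by omega) (by omega))
  have h21 : m₂.v 1 = idx := (hv2 1 (by omega) (by omega) (by omega)).trans h11
  refine seqS (a := 0) (b := idx) (x := n) (T := 10 + 10 * t) (V.lit (by omega))
    (V.reg h21 (by omega)) (V.reg hR2.1 (by omega)) ?_ (by simp only [Expr.cost]; omega)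
  obtain ⟨hI1, hF1⟩ := assign_inst hm₂.2.2 0 n
  have hinit : (Mem.setV ⟨fun _ => 0, (pull X G (lab k n ω' h)).enc.a⟩ 0 n)
      = (pull X G (lab k n ω' h)).enc := rfl
  rw [hinit] at hI1
  have hsim := sim' (P.W n) W' (nL k n + 1) idx ω ω' P.prog (m₂.setA 10 0 idx n) _ _ t (by omega)
    (by omega) (by omega) N.W2 N.WL N.mxP hω h21 hR2.2.1 hI1 hrun
  refine (Tr.seq (T₁ := 10 * t) (T₂ := 10) (hsim.mono ?_)).le (by omega)
  rintro m₃ ⟨hI3, hF3⟩
  have hv3 : m₃.v = m₂.v := by rw [hF3.1]; rfl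
  have hν1 : ν.v 1 < W' := by
    refine regs_lt hrun (by omega) ?_
    show (if 1 = 0 then n else 0) < W'
    simp
    omega
  have h323 : m₃.v 23 = c := by
    rw [hv3, hv2 23 (by omega) (by omega) (by omega), hv1 23 (by omega)]
    exact h23
  refine trA (x := c + (1 - (1 - ν.v 1))) (V.add (V.reg h323 (by omega))
    (V.sub (V.lit (by omega)) (V.sub (V.lit (by omega)) (V.get (V.lit (by omega))
      (V.reg (n := idx) (by rw [hv3]; exact h21) (by omega)) (hI3.1 1) hν1))) (by omega)) ?_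
    (by decide)
  refine ⟨?_, ?_, ?_⟩
  · intro y y1 y10 y12 y13 y23
    rw [setV_v, if_neg y23, hv3, hv2 y y10 y12 y13, hv1 y y1]
  · simp
  · refine CF.trans ?_ (CF.setV _ _ _)
    refine CF.trans ?_ (CF.of_sim hF3)
    refine CF.trans ?_ (CF.of_sim hF1)
    refine CF.trans ?_ hm₂.2.1
    rw [hm₁]
    exact CF.setV _ _ _

/-- the copies of a group -/
theorem copies_tr (X : Instance n) (G : SimpleGraph (Fin n)) {ω' : ℕ → ℕ → ℕ}
    {ω : ℕ → ℕ → ℕ → ℕ} {len : ℕ} {A6 : ℕ → ℕ → ℕ} (hL : LI G n 0 len A6)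
    {h : ℕ} (hh : h < nG k n) {μ : ℕ → Mem} {t : ℕ → ℕ}
    (hω : ∀ idx < nL k n, ∀ i < P.W n, ∀ j' < P.W n,
      ω' (2 * i) (j' * (nL k n + 1) + idx) = ω idx i j')
    (hrun : ∀ j < cK n, Runs (P.W n) (ω (h * cK n + j)) P.prog
      (pull X G (lab k n ω' h)).enc (μ (h * cK n + j)) (t (h * cK n + j)))
    (m : Mem) (hE : Env X k len A6 m) (h5 : ∀ x y, PA G x y → m.a 5 0 x = lab k n ω' h x)
    (h8 : m.v 8 = h)
    (hz : ∀ idx < nL k n, h * cK n ≤ idx →
      Inst (nL k n + 1) idx m ⟨fun _ => 0, fun _ _ _ => 0⟩)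
    (h23 : m.v 23 = 0) :
    Tr W' ω' (forR 9 (.reg 5) (copyP P)) m
      (5 + ∑ j ∈ Finset.range (cK n), (32 + len * 50 + 10 * t (h * cK n + j)))
      (fun m' => Env X k len A6 m' ∧ m'.v 8 = h ∧ m'.v 24 = m.v 24 ∧
        (∀ idx < nL k n, (h + 1) * cK n ≤ idx →
          Inst (nL k n + 1) idx m' ⟨fun _ => 0, fun _ _ _ => 0⟩) ∧
        m'.v 23 = cnt n μ h (cK n)) := by
  have hnW := N.nW
  have hLW := N.LW
  have hKL := N.KL
  refine (Tr.forR (x := 9) (e := .reg 5)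
    (I := fun l m' => (Env X k len A6 m' ∧ (∀ x y, PA G x y → m'.a 5 0 x = lab k n ω' h x) ∧
      m'.v 8 = h ∧ m'.v 24 = m.v 24) ∧ (∀ idx < nL k n, h * cK n + l ≤ idx →
          Inst (nL k n + 1) idx m' ⟨fun _ => 0, fun _ _ _ => 0⟩) ∧
        m'.v 23 = cnt n μ h l)
    (T := fun j => 25 + len * 50 + 10 * t (h * cK n + j)) (cK n) (by omega)
      ?_ ?_ ?_ ?_).le ?_
  · refine ⟨⟨hE.setV (by omega) (by omega) 0, h5, ?_, ?_⟩, ?_, ?_⟩
    · rw [setV_v, if_neg (by omega)]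
      exact h8
    · rw [setV_v, if_neg (by omega)]
    · intro idx h1 h2
      exact hz idx h1 (by omega)
    · rw [setV_v, if_neg (by omega), h23]
      rfl
  · intro l hl m' hm' _
    have : m'.v 5 = cK n := hm'.1.1.1.2.2.2.2.1
    exact ⟨show m'.v 5 < W' by omega, this⟩
  · rintro l hl m' ⟨⟨hE', h5', h8', h24'⟩, hz', h23'⟩ h9'
    have hidx := idx_lt hh hl
    have hcl := cnt_le n μ h l
    refine (copy_tr N X G hL hh hl (hω _ hidx) (hrun l hl) m' hE' h5' h8' h9'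
      (hz' _ hidx le_rfl) h23' (by omega)).mono ?_
    rintro m'' ⟨hv, hv23, hcf⟩
    refine ⟨(hv 9 (by omega) (by omega) (by omega) (by omega) (by omega)).trans h9',
      ⟨Env.setV (hE'.cf (fun y hy y1 => hv y y1 (by omega) (by omega) (by omega) (by omega))
        (hv 26 (by omega) (by omega) (by omega) (by omega) (by omega)) hcf)
        (by omega) (by omega) _, ?_, ?_, ?_⟩, ?_, ?_⟩
    · intro x y hxy
      show m''.a 5 0 x = _
      rw [hcf.1 5 (by omega)]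
      exact h5' x y hxy
    · rw [setV_v, if_neg (by omega), hv 8 (by omega) (by omega) (by omega) (by omega) (by omega)]
      exact h8'
    · rw [setV_v, if_neg (by omega), hv 24 (by omega) (by omega) (by omega) (by omega) (by omega)]
      exact h24'
    · intro idx h1 h2
      exact hcf.inst (by omega) (by omega) (hz' idx h1 (by omega))
    · rw [setV_v, if_neg (by omega), hv23, cnt_succ]
  · rintro m' ⟨⟨hE', h5', h8', h24'⟩, hz', h23'⟩ _
    refine ⟨hE', h8', h24', ?_, h23'⟩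
    intro idx h1 h2
    have : (h + 1) * cK n = h * cK n + cK n := by ring
    exact hz' idx h1 (by omega)
  · have : ∀ j, (Expr.reg 5).cost + 6 + (25 + len * 50 + 10 * t (h * cK n + j))
        = 32 + len * 50 + 10 * t (h * cK n + j) := by
      intro j
      simp only [Expr.cost]
      omega
    simp only [this]
    simp only [Expr.cost]
    omega

end Copy

end Pool.Agent.W2helper86.ETS
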